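import Pool.Agent.Helper89_UW.Dual

/-!
# A cuspidal representation of positive depth with a unique degenerate Whittaker model

`K` is a finite field of odd characteristic, `L` a cubic extension of `K` and `φ` a nontrivial
automorphism of `L` over `K`. The division algebra `D` consists of the skew Laurent series
`∑ a_i ϖ^i` with coefficients in `L` and `ϖ a = φ(a) ϖ`; its centre is `F = K((t))`, where
`t = ϖ³`, and it has degree three over `F`. We show that `GL_2(D)` has a cuspidal representation
whose space of degenerate Whittaker models is one-dimensional, for every nontrivial character of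
`F`, and no twist of which by a character of `GL_2(D)` is of depth zero.
-/

namespace Pool.Agent.Results.MP_b9c857_al.PositiveDepth

open Pool.Agent.UW Pool.Agent.UW.SkewLaurent

section defs

variable {L : Type} [Field L] {φ : RingAut L}

/-- The group `GL_2(D)` for a ring `D` of skew Laurent series. -/
abbrev GL2 (L : Type) [Field L] (φ : RingAut L) : Type :=
  (Matrix (Fin 2) (Fin 2) (SkewLaurent L φ))ˣ

/-- The upper triangular unipotent matrix with upper right entry `x`. -/
noncomputable def unip (x : SkewLaurent L φ) : GL2 L φ where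
  val := !![1, x; 0, 1]
  inv := !![1, -x; 0, 1]
  val_inv := by
    rw [Matrix.mul_fin_two, Matrix.one_fin_two]
    simp
  inv_val := by
    rw [Matrix.mul_fin_two, Matrix.one_fin_two]
    simp

variable {V : Type} [AddCommGroup V] [Module ℂ V]

/-- Smoothness: every vector is fixed by the matrices `g` such that the entries of `g - 1` are in
`P^k` (that is, have no terms of degree less than `k`), for some `k`. -/
def IsSmooth (ρ : Representation ℂ (GL2 L φ) V) : Prop :=
  ∀ v, ∃ k : ℤ, ∀ g : GL2 L φ, (∀ i j, (g.val - 1) i j ∈ P L φ k) → ρ g v = v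

/-- Irreducibility: the space is not zero, and its only invariant subspaces are zero and the whole
space. -/
def IsIrred (ρ : Representation ℂ (GL2 L φ) V) : Prop :=
  Nontrivial V ∧ ∀ W : Submodule ℂ V, (∀ g, ∀ v ∈ W, ρ g v ∈ W) → W = ⊥ ∨ W = ⊤

/-- The span of the vectors `ρ(u) v - θ(x) v`, where `u` is the unipotent matrix with upper right
entry `x`. The quotient of `V` by this subspace is the twisted Jacquet module of `ρ` with respect
to the character `θ` of the group of these matrices. -/
def jac (ρ : Representation ℂ (GL2 L φ) V) (θ : SkewLaurent L φ → ℂ) : Submodule ℂ V :=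
  Submodule.span ℂ {u | ∃ (x : SkewLaurent L φ) (v : V), u = ρ (unip x) v - θ x • v}

/-- Cuspidality: the Jacquet module (with respect to the trivial character) is zero. -/
def IsCusp (ρ : Representation ℂ (GL2 L φ) V) : Prop := jac ρ (fun _ => 1) = ⊤

/-- A lattice in `D²`: a subgroup stable under right multiplication by the valuation ring
`P^0`, bounded and open. -/
structure IsLattice (Λ : AddSubgroup (Fin 2 → SkewLaurent L φ)) : Prop where
  smul : ∀ v ∈ Λ, ∀ a ∈ P L φ 0, (fun j => v j * a) ∈ Λ
  bdd : ∃ k : ℤ, ∀ v ∈ Λ, ∀ j, v j ∈ P L φ k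
  isOpen : ∃ k : ℤ, ∀ v, (∀ j, v j ∈ P L φ k) → v ∈ Λ

/-- The uniformizer `ϖ` of `D`. -/
def varpi (φ : RingAut L) : SkewLaurent L φ where
  coeff i := if i = 1 then 1 else 0
  bdd := ⟨1, fun _ hi => if_neg hi.ne⟩

/-- A lattice chain in `D²`: a strictly decreasing sequence of lattices which is periodic, a shift
by the period being the multiplication by the uniformizer `ϖ`. -/
structure IsChain (Λ : ℤ → AddSubgroup (Fin 2 → SkewLaurent L φ)) : Prop where
  lattice : ∀ i, IsLattice (Λ i)
  strict : ∀ i, Λ (i + 1) < Λ i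
  periodic : ∃ e : ℤ, 0 < e ∧ ∀ i v, v ∈ Λ (i + e) ↔ ∃ w ∈ Λ i, v = fun j => w j * varpi φ

/-- Depth zero: for some lattice chain there is a nonzero vector fixed by the pro-unipotent radical
of the corresponding parahoric subgroup, that is, by all the matrices `g` such that `g - 1` maps
every lattice of the chain to the next one. -/
def DepthZero (ρ : Representation ℂ (GL2 L φ) V) : Prop :=
  ∃ Λ : ℤ → AddSubgroup (Fin 2 → SkewLaurent L φ), IsChain Λ ∧ ∃ v : V, v ≠ 0 ∧
    ∀ g : GL2 L φ, (∀ i, ∀ w ∈ Λ i, Matrix.mulVec (g.val - 1) w ∈ Λ (i + 1)) → ρ g v = v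

/-- The twist of a representation by a character. -/
noncomputable def twist (ρ : Representation ℂ (GL2 L φ) V) (ξ : GL2 L φ →* ℂˣ) :
    Representation ℂ (GL2 L φ) V where
  toFun g := (ξ g : ℂ) • ρ g
  map_one' := by rw [map_one, map_one, Units.val_one, one_smul]
  map_mul' g h := by
    rw [map_mul, map_mul, Units.val_mul, smul_mul_smul_comm]

/-- The standard chain `P^i × P^i`, as a check that lattice chains exist. -/
theorem isChain_standard : ∃ Λ : ℤ → AddSubgroup (Fin 2 → SkewLaurent L φ), IsChain Λ := by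
  refine ⟨fun i => AddSubgroup.pi Set.univ fun _ => P L φ i, ⟨fun i => ⟨?_, ⟨i, ?_⟩, ⟨i, ?_⟩⟩,
    fun i => lt_of_le_of_ne ?_ ?_, ⟨1, one_pos, fun i v => ⟨fun hv => ?_, ?_⟩⟩⟩⟩
  · intro v hv a ha j hj
    have h := mul_mem_P (hv j hj) ha
    rwa [add_zero] at h
  · intro v hv j
    exact hv j trivial
  · intro v hv j _
    exact hv j
  · intro v hv j hj
    exact P_anti (by lia) (hv j hj)
  · intro h
    have h1 : (fun _ => mon φ i 1 : Fin 2 → SkewLaurent L φ) ∈
        AddSubgroup.pi Set.univ fun _ => P L φ i := fun j _ => mon_mem i 1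
    rw [← h] at h1
    have h2 := h1 0 trivial i (by lia)
    rw [mon_coeff, if_pos rfl] at h2
    exact one_ne_zero h2
  · refine ⟨fun j => v j * mon φ (-1) 1, fun j hj => ?_, ?_⟩
    · have h := mul_mem_P (hv j hj) (mon_mem (φ := φ) (-1) (1 : L))
      rwa [add_neg_cancel_right] at h
    · funext j
      have h : mon φ (-1) 1 * varpi φ = 1 := by
        show mon φ (-1) 1 * mon φ 1 1 = 1
        rw [mon_mul_mon, map_one, mul_one, neg_add_cancel, mon_zero_one]
      rw [mul_assoc, h, mul_one]
  · rintro ⟨w, hw, rfl⟩ j hj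
    exact mul_mem_P (hw j hj) (mon_mem 1 1)

end defs

section trace

variable {K L : Type} [Field K] [Field L] [Algebra K L]

/-- The division algebra `D` attached to an automorphism `φ` of `L` over `K`. -/
abbrev DivAlg (φ : L ≃ₐ[K] L) : Type := SkewLaurent L φ.toRingEquiv

/-- The reduced trace of `D` over `K((t))`, `t = ϖ³`: the coefficient of `t^i` in the reduced trace
of `x` is the trace from `L` to `K` of the coefficient of `ϖ^(3i)` in `x`. -/
noncomputable def trd (φ : L ≃ₐ[K] L) (x : DivAlg φ) : LaurentSeries K :=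
  HahnSeries.ofSuppBddBelow (fun i => Algebra.trace K L (x.coeff (3 * i))) (by
    obtain ⟨m, hm⟩ := x.bdd
    refine ⟨min m 0, fun i hi => ?_⟩
    by_contra h
    apply hi
    show Algebra.trace K L (x.coeff (3 * i)) = 0
    rw [hm _ (by lia), map_zero])

end trace

/-- For a finite field `K` of odd characteristic, a cubic extension `L` of `K` and a nontrivial
automorphism `φ` of `L` over `K`, the skew Laurent series form a central division algebra `D` of
dimension nine over `F = K((t))`, `t = ϖ³`, and `GL_2(D)` has a smooth irreducible cuspidal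
representation whose twisted Jacquet module is one-dimensional for every nontrivial smooth
character of `F`, and no twist of which is of depth zero. -/
theorem result (K L : Type) [Field K] [Finite K] [Field L] [Algebra K L] (h2 : (2 : K) ≠ 0)
    (h3 : Module.finrank K L = 3) (φ : L ≃ₐ[K] L) (hφ : φ ≠ 1) :
    (∃ _ : Algebra (LaurentSeries K) (DivAlg φ),
      (∀ (f : LaurentSeries K) (i : ℤ), (algebraMap (LaurentSeries K) (DivAlg φ) f).coeff i =
        if 3 ∣ i then algebraMap K L (f.coeff (i / 3)) else 0) ∧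
      (∀ x : DivAlg φ, x ≠ 0 → IsUnit x) ∧
      Algebra.IsCentral (LaurentSeries K) (DivAlg φ) ∧
      Module.finrank (LaurentSeries K) (DivAlg φ) = 9) ∧
    ∃ (V : Type) (_ : AddCommGroup V) (_ : Module ℂ V)
      (ρ : Representation ℂ (GL2 L φ.toRingEquiv) V),
      IsSmooth ρ ∧ IsIrred ρ ∧ IsCusp ρ ∧
      (∀ φ₀ : AddChar (LaurentSeries K) ℂ, φ₀ ≠ 1 →
        (∃ k : ℤ, ∀ f : LaurentSeries K, (∀ i < k, f.coeff i = 0) → φ₀ f = 1) →
        Module.finrank ℂ (V ⧸ jac ρ fun x => φ₀ (trd φ x)) = 1) ∧
      ∀ ξ : GL2 L φ.toRingEquiv →* ℂˣ, ¬ DepthZero (twist ρ ξ) := by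
  classical
  have hr := ring_three h3 hφ
  have hfin : FiniteDimensional K L := FiniteDimensional.of_finrank_pos (by rw [h3]; norm_num)
  have hL : Finite L := Module.finite_of_finite K
  refine ⟨⟨algD hr, fun _ _ => rfl, fun x hx => (Units.mk0 x hx).isUnit,
    central hr hφ (order_three h3 hφ).2, finrank_D hr h3⟩, ?_⟩
  -- a nonsquare
  obtain ⟨c₀, hc₀⟩ := FiniteField.exists_nonsquare (F := K) (by
    intro h
    apply h2
    have h4 := (ringChar.spec K 2).2 (by rw [h])
    exact_mod_cast h4)
  have hns := nonsquare h3 hφ h2 hc₀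
  have : Fact (∀ r : L, r ^ 2 ≠ algebraMap K L c₀ + 0 * r) := ⟨hns⟩
  have hc : φ.toRingEquiv (algebraMap K L c₀) = algebraMap K L c₀ := φ.commutes c₀
  -- the character
  obtain ⟨χ, hχ⟩ := exists_chi (φ := φ.toRingEquiv) hr (by
    by_contra hcon
    push Not at hcon
    exact hφ (AlgEquiv.ext hcon))
  have hf0 : f0 hc χ ≠ 0 := by
    intro h
    have h4 := congr_arg (fun f : Vs hc χ => (f : G L φ.toRingEquiv → ℂ) 1) h
    have h5 : Lam hc χ (1 : G L φ.toRingEquiv) = 0 := h4
    rw [Lam_one hr] at h5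
    exact one_ne_zero h5
  refine ⟨Vs hc χ, inferInstance, inferInstance, rho hc χ, ?_, ⟨⟨f0 hc χ, 0, hf0⟩, ?_⟩, ?_, ?_, ?_⟩
  · intro v
    obtain ⟨k, hk⟩ := Vs_smooth hr v.2
    exact ⟨k, fun g hg => Subtype.ext (hk g hg)⟩
  · intro W hW
    by_cases h0 : W = ⊥
    · exact Or.inl h0
    · exact Or.inr (irred hr hχ W hW h0)
  · have h4 := cuspidal (hc := hc) hr hχ
    show jac (rho hc χ) (fun _ => 1) = ⊤
    rw [jac, ← h4]
    congr 1
    ext u
    constructor
    · rintro ⟨x, v, rfl⟩
      exact ⟨x, v, by rw [one_smul]; rfl⟩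
    · rintro ⟨x, v, rfl⟩
      exact ⟨x, v, by rw [one_smul]; rfl⟩
  · intro φ₀ hφ₀ hsm
    obtain ⟨k, hk⟩ := hsm
    have hsep : Algebra.IsSeparable K L := inferInstance
    obtain ⟨κ, hκ⟩ := dual (trChar_inv hr χ) hχ (φ₀.compAddMonoidHom (Trd φ)) (N := 3 * k) (by
      intro z hz
      apply hk
      intro i hi
      rw [Trd_coeff, hz _ (by lia), map_zero])
    have hκ0 : κ ≠ 0 := by
      rintro rfl
      apply hφ₀
      ext f
      obtain ⟨z, rfl⟩ := Trd_surjective φ f
      have h4 := hκ z
      rw [zero_mul, AddChar.map_zero_eq_one] at h4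
      exact h4
    exact finrank_Jtw (hc := hc) hr hχ hκ0 (Φ := fun x => φ₀ (trd φ x)) hκ
  · rintro ξ ⟨Λ, hΛ, v, hv, hfix⟩
    obtain ⟨e, he, hper⟩ := hΛ.periodic
    refine no_fixed hr hχ ξ Λ e he (hΛ.lattice 0).smul (hΛ.lattice 0).bdd ?_
      (fun i => (hΛ.strict i).le) hper v hv (fun g hg => hfix g hg)
    obtain ⟨w, hw, hw0⟩ := SetLike.exists_of_lt (hΛ.strict 0)
    refine ⟨w, hw, ?_⟩
    rintro rfl
    exact hw0 (zero_mem _)

end Pool.Agent.Results.MP_b9c857_al.PositiveDepth
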